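import Mathlib
import Pool.Agent.Results.MP_725b87_an.NotPluripolar

/-!
# Second order Taylor expansion, second order conditions and a determinant bound
-/

set_option autoImplicit false

namespace Pool.Agent.N671.UT

open Set Filter Topology Metric MeasureTheory
open Pool.Agent.Results.MP_725b87_an.NotPluripolar (Cn circ IsPSH HasUpperTest exceptional)
open scoped ContDiff RealInnerProductSpace

section Taylor

variable {E : Type*} [NormedAddCommGroup E] [NormedSpace ℝ E]

/-- Second order Taylor expansion. -/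
theorem taylor2 {f : E → ℝ} (hf : ContDiff ℝ 2 f) (x : E) {η : ℝ} (hη : 0 < η) :
    ∃ δ : ℝ, 0 < δ ∧ ∀ h : E, ‖h‖ < δ →
      |f (x + h) - f x - fderiv ℝ f x h - (1 / 2) * fderiv ℝ (fderiv ℝ f) x h h| ≤ η * ‖h‖ ^ 2 := by
  set H := fderiv ℝ (fderiv ℝ f) x with hH
  have hd : Differentiable ℝ f := hf.differentiable (by norm_num)
  have hf' : ContDiff ℝ 1 (fderiv ℝ f) := hf.fderiv_right (by norm_num)
  have hd' : HasFDerivAt (fderiv ℝ f) H x := (hf'.differentiable (by norm_num) x).hasFDerivAt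
  have hsym : ∀ v w, H v w = H w v := by
    intro v w
    have := (hf.contDiffAt (x := x)).isSymmSndFDerivAt (by simp)
    exact this v w
  have hlo := hd'.isLittleO
  rw [Asymptotics.isLittleO_iff] at hlo
  have h1 := hlo hη
  rw [Metric.eventually_nhds_iff] at h1
  obtain ⟨δ, hδ, h1⟩ := h1
  refine ⟨δ, hδ, ?_⟩
  intro h hh
  set R : E → ℝ := fun k => f (x + k) - f x - fderiv ℝ f x k - (1 / 2) * H k k with hR
  have hRd : ∀ k : E, HasFDerivAt R (fderiv ℝ f (x + k) - fderiv ℝ f x - H k) k := by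
    intro k
    have e1 : HasFDerivAt (fun k : E => f (x + k)) (fderiv ℝ f (x + k)) k := by
      have h := HasFDerivAt.comp k (hd (x + k)).hasFDerivAt ((hasFDerivAt_id k).const_add x)
      refine HasFDerivAt.congr_fderiv (f := fun k : E => f (x + k)) h ?_
      ext v
      simp
    have e2 : HasFDerivAt (fun k : E => fderiv ℝ f x k) (fderiv ℝ f x) k :=
      (fderiv ℝ f x).hasFDerivAt
    have e3 : HasFDerivAt (fun k : E => H k k) (2 • (H k)) k := by
      have a1 : HasFDerivAt (fun k : E => H k) H k := H.hasFDerivAt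
      have a2 := a1.clm_apply (hasFDerivAt_id k)
      refine HasFDerivAt.congr_fderiv (f := fun k : E => H k k) a2 ?_
      ext v
      have e5 : H v k = H k v := hsym v k
      simp [e5, two_smul]
    have e4 := ((e1.sub_const (f x)).sub e2).sub (e3.const_mul (1 / 2 : ℝ))
    refine HasFDerivAt.congr_fderiv (f := R) e4 ?_
    ext v
    simp
  have hbound : ∀ k ∈ closedBall (0 : E) ‖h‖, ‖fderiv ℝ f (x + k) - fderiv ℝ f x - H k‖ ≤ η * ‖h‖ := by
    intro k hk
    rw [mem_closedBall_zero_iff] at hk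
    have := h1 (y := x + k) (by rw [dist_eq_norm]; simpa using lt_of_le_of_lt hk hh)
    simp only [add_sub_cancel_left] at this
    exact this.trans (mul_le_mul_of_nonneg_left hk hη.le)
  have h2 := (convex_closedBall (0 : E) ‖h‖).norm_image_sub_le_of_norm_hasFDerivWithin_le
    (fun k _ => (hRd k).hasFDerivWithinAt) hbound
    (show (0 : E) ∈ closedBall (0 : E) ‖h‖ by simp) (show h ∈ closedBall (0 : E) ‖h‖ by simp)
  have h3 : R 0 = 0 := by simp [hR]
  rw [h3, sub_zero, sub_zero, Real.norm_eq_abs] at h2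
  calc |f (x + h) - f x - fderiv ℝ f x h - 1 / 2 * H h h| = |R h| := by simp [hR]
    _ ≤ η * ‖h‖ * ‖h‖ := h2
    _ = η * ‖h‖ ^ 2 := by ring

/-- Second order condition at a local maximum. -/
theorem second_order_max {f : E → ℝ} (hf : ContDiff ℝ 2 f) {x : E} (hx : IsLocalMax f x) (v : E) :
    fderiv ℝ (fderiv ℝ f) x v v ≤ 0 := by
  have h0 : fderiv ℝ f x = 0 := hx.fderiv_eq_zero
  by_contra hcon
  push Not at hcon
  set a := fderiv ℝ (fderiv ℝ f) x v v with ha
  have hη : 0 < a / (4 * (‖v‖ ^ 2 + 1)) := by positivity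
  obtain ⟨δ, hδ, h1⟩ := taylor2 hf x hη
  have hmax : ∀ᶠ t : ℝ in 𝓝[>] 0, f (x + t • v) ≤ f x := by
    have hc : Tendsto (fun t : ℝ => x + t • v) (𝓝[>] 0) (𝓝 x) := by
      have : Tendsto (fun t : ℝ => x + t • v) (𝓝 0) (𝓝 (x + (0 : ℝ) • v)) := by
        apply Continuous.tendsto; fun_prop
      simp only [zero_smul, add_zero] at this
      exact this.mono_left nhdsWithin_le_nhds
    exact hc.eventually hx
  have hsmall : ∀ᶠ t : ℝ in 𝓝[>] 0, ‖t • v‖ < δ := by
    have : Tendsto (fun t : ℝ => ‖t • v‖) (𝓝 0) (𝓝 ‖(0 : ℝ) • v‖) := by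
      apply Continuous.tendsto; fun_prop
    simp only [zero_smul, norm_zero] at this
    exact (this.mono_left nhdsWithin_le_nhds).eventually (gt_mem_nhds hδ)
  obtain ⟨t, ht1, ht2, ht3⟩ := (hmax.and (hsmall.and self_mem_nhdsWithin)).exists
  have ht : 0 < t := ht3
  have h2 := h1 _ ht2
  rw [h0] at h2
  simp only [zero_apply, sub_zero, map_smul, smul_apply,
    smul_eq_mul, norm_smul] at h2
  rw [← ha] at h2
  rw [abs_le] at h2
  have h3 := h2.1
  have h4 : (‖t‖ * ‖v‖) ^ 2 = t ^ 2 * ‖v‖ ^ 2 := by rw [mul_pow, Real.norm_eq_abs, sq_abs]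
  rw [h4] at h3
  have h5 : a / (4 * (‖v‖ ^ 2 + 1)) * (t ^ 2 * ‖v‖ ^ 2) ≤ t ^ 2 * (a / 4) := by
    have : a / (4 * (‖v‖ ^ 2 + 1)) * (t ^ 2 * ‖v‖ ^ 2) = t ^ 2 * (a / 4) * (‖v‖ ^ 2 / (‖v‖ ^ 2 + 1)) := by
      field_simp
    rw [this]
    apply mul_le_of_le_one_right (by positivity)
    rw [div_le_one (by positivity)]
    linarith
  have h6 : 0 < t ^ 2 * a := by positivity
  nlinarith

end Taylor

section Det

variable {E : Type*} [NormedAddCommGroup E] [InnerProductSpace ℝ E] [FiniteDimensional ℝ E]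

/-- A symmetric nonnegative operator with trace at most the dimension has determinant in `[0,1]`. -/
theorem det_le_one (A : E →ₗ[ℝ] E) (hs : A.IsSymmetric) (hp : ∀ v, 0 ≤ ⟪A v, v⟫)
    (ht : LinearMap.trace ℝ E A ≤ Module.finrank ℝ E) : |LinearMap.det A| ≤ 1 := by
  obtain ⟨d, hd⟩ : ∃ d, Module.finrank ℝ E = d := ⟨_, rfl⟩
  rw [hs.det_eq_prod_eigenvalues hd]
  rw [LinearMap.IsSymmetric.trace_eq_sum_eigenvalues hd hs, hd] at ht
  simp only [RCLike.ofReal_real_eq_id, id_eq] at ht ⊢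
  have hnn : ∀ i, 0 ≤ hs.eigenvalues hd i := by
    intro i
    have h1 := hp (hs.eigenvectorBasis hd i)
    rw [hs.apply_eigenvectorBasis hd i] at h1
    have : ⟪((hs.eigenvalues hd i : ℝ)) • (hs.eigenvectorBasis hd i), hs.eigenvectorBasis hd i⟫ =
      hs.eigenvalues hd i := by
      rw [real_inner_smul_left, real_inner_self_eq_norm_sq, (hs.eigenvectorBasis hd).norm_eq_one]
      simp
    simpa [this] using h1
  rw [abs_of_nonneg (Finset.prod_nonneg fun i _ => hnn i)]
  rcases Nat.eq_zero_or_pos d with h0 | hpos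
  · subst h0; simp
  · have hd' : (0 : ℝ) < d := by exact_mod_cast hpos
    have hw : ∑ _i : Fin d, (1 / (d : ℝ)) = 1 := by
      simp; field_simp
    have h1 := Real.geom_mean_le_arith_mean_weighted (Finset.univ : Finset (Fin d))
      (fun _ => 1 / (d : ℝ)) (fun i => hs.eigenvalues hd i) (fun _ _ => by positivity) hw
      (fun i _ => hnn i)
    have h2 : ∑ i : Fin d, 1 / (d : ℝ) * hs.eigenvalues hd i ≤ 1 := by
      rw [← Finset.mul_sum, one_div, inv_mul_le_iff₀ hd', mul_one]
      exact ht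
    have h3 : ∏ i : Fin d, (hs.eigenvalues hd i) ^ (1 / (d : ℝ)) =
        (∏ i : Fin d, hs.eigenvalues hd i) ^ (1 / (d : ℝ)) :=
      Real.finsetProd_rpow _ _ (fun i _ => hnn i) _
    rw [h3] at h1
    have h4 : (∏ i : Fin d, hs.eigenvalues hd i) ^ (1 / (d : ℝ)) ≤ 1 := h1.trans h2
    by_contra hcon
    push Not at hcon
    have := Real.one_lt_rpow hcon (show (0 : ℝ) < 1 / d by positivity)
    linarith

/-- the gradient of a real linear functional -/
noncomputable def gradMap : (E →L[ℝ] ℝ) →L[ℝ] E :=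
  ∑ i, (ContinuousLinearMap.apply ℝ ℝ (stdOrthonormalBasis ℝ E i)).smulRight (stdOrthonormalBasis ℝ E i)

theorem inner_gradMap (φ : E →L[ℝ] ℝ) (w : E) : ⟪gradMap φ, w⟫ = φ w := by
  unfold gradMap
  simp only [FunLike.coe_sum, Finset.sum_apply, ContinuousLinearMap.smulRight_apply,
    ContinuousLinearMap.apply_apply, sum_inner, real_inner_smul_left]
  conv_rhs => rw [← (stdOrthonormalBasis ℝ E).sum_repr' w]
  rw [map_sum]
  apply Finset.sum_congr rfl
  intro i _
  rw [map_smul, smul_eq_mul, mul_comm]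

omit [FiniteDimensional ℝ E] in
variable (E) in
/-- the real inner product as a continuous bilinear map -/
noncomputable def innB : E →L[ℝ] E →L[ℝ] ℝ :=
  (isBoundedBilinearMap_inner (𝕜 := ℝ) (E := E)).toContinuousLinearMap

omit [FiniteDimensional ℝ E] in
theorem innB_apply (v w : E) : innB E v w = ⟪v, w⟫ := rfl

end Det

end Pool.Agent.N671.UT
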