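import Pool.Agent.N671.UT.Basic

/-!
# The measure of the contact set of a smooth function with nonnegative complex Hessian trace
-/

set_option autoImplicit false

namespace Pool.Agent.N671.UT

open Set Filter Topology Metric MeasureTheory
open Pool.Agent.Results.MP_725b87_an.NotPluripolar (Cn circ IsPSH HasUpperTest exceptional)
open scoped ContDiff RealInnerProductSpace

variable {n : ℕ}

theorem exp_smul (θ : ℝ) (w : Cn n) : Complex.exp ((θ : ℂ) * Complex.I) • w =
    Real.cos θ • w + Real.sin θ • (Complex.I • w) := by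
  rw [Complex.exp_mul_I, add_smul, ← Complex.ofReal_cos, ← Complex.ofReal_sin, mul_smul]
  simp only [Complex.coe_smul]

/-- The mean value property over circles gives the second order inequality. -/
theorem hess_nonneg {f : Cn n → ℝ} (hf : ContDiff ℝ 2 f) (x : Cn n) {s : ℝ} (hs : 0 < s)
    (hm : ∀ w : Cn n, ‖w‖ ≤ s → 2 * Real.pi * f x ≤ ∫ θ in (0 : ℝ)..(2 * Real.pi), f (circ x w θ))
    (v : Cn n) :
    0 ≤ fderiv ℝ (fderiv ℝ f) x v v + fderiv ℝ (fderiv ℝ f) x (Complex.I • v) (Complex.I • v) := by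
  set H := fderiv ℝ (fderiv ℝ f) x with hH
  set D := fderiv ℝ f x with hD
  have hpi : 0 < Real.pi := Real.pi_pos
  -- it suffices to bound below by `-4 η |v|^2`
  have key : ∀ η : ℝ, 0 < η → -(4 * η * ‖v‖ ^ 2) ≤ H v v + H (Complex.I • v) (Complex.I • v) := by
    intro η hη
    obtain ⟨δ, hδ, hT⟩ := taylor2 hf x hη
    obtain ⟨t, ht0, ht1, ht2⟩ : ∃ t : ℝ, 0 < t ∧ t * ‖v‖ < δ ∧ t * ‖v‖ ≤ s := by
      refine ⟨min (δ / (2 * (‖v‖ + 1))) (s / (‖v‖ + 1)), by positivity, ?_, ?_⟩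
      · calc min (δ / (2 * (‖v‖ + 1))) (s / (‖v‖ + 1)) * ‖v‖ ≤ δ / (2 * (‖v‖ + 1)) * ‖v‖ := by
              gcongr; exact min_le_left _ _
          _ ≤ δ / 2 := by
              rw [div_mul_eq_mul_div, div_le_div_iff₀ (by positivity) (by norm_num)]
              nlinarith [norm_nonneg v]
          _ < δ := by linarith
      · calc min (δ / (2 * (‖v‖ + 1))) (s / (‖v‖ + 1)) * ‖v‖ ≤ s / (‖v‖ + 1) * ‖v‖ := by
              gcongr; exact min_le_right _ _
          _ ≤ s := by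
              rw [div_mul_eq_mul_div, div_le_iff₀ (by positivity)]
              nlinarith [norm_nonneg v]
    obtain ⟨w, hw⟩ : ∃ w : Cn n, w = t • v := ⟨_, rfl⟩
    have hwn : ‖w‖ = t * ‖v‖ := by rw [hw, norm_smul, Real.norm_of_nonneg ht0.le]
    have h1 := hm w (by rw [hwn]; exact ht2)
    have hHs : ∀ a b, H a b = H b a := by
      intro a b
      exact (hf.contDiffAt (x := x)).isSymmSndFDerivAt (by simp) a b
    set a := H w w with ha
    set b := H w (Complex.I • w) with hb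
    set c := H (Complex.I • w) (Complex.I • w) with hc
    have h2 : ∀ θ : ℝ, f (circ x w θ) ≤ f x + (Real.cos θ * D w + Real.sin θ * D (Complex.I • w)) +
        (1 / 2) * (Real.cos θ ^ 2 * a + 2 * (Real.sin θ * Real.cos θ) * b + Real.sin θ ^ 2 * c) +
        η * ‖w‖ ^ 2 := by
      intro θ
      have e1 : ‖Complex.exp ((θ : ℂ) * Complex.I) • w‖ = ‖w‖ := by
        rw [norm_smul, Complex.norm_exp_ofReal_mul_I, one_mul]
      have h3 := hT (Complex.exp ((θ : ℂ) * Complex.I) • w) (by rw [e1, hwn]; exact ht1)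
      rw [e1, ← hH, ← hD] at h3
      have h4 := (abs_le.1 h3).2
      have e2 : D (Complex.exp ((θ : ℂ) * Complex.I) • w) =
          Real.cos θ * D w + Real.sin θ * D (Complex.I • w) := by
        rw [exp_smul, map_add, map_smul, map_smul, smul_eq_mul, smul_eq_mul]
      have e3 : H (Complex.exp ((θ : ℂ) * Complex.I) • w) (Complex.exp ((θ : ℂ) * Complex.I) • w) =
          Real.cos θ ^ 2 * a + 2 * (Real.sin θ * Real.cos θ) * b + Real.sin θ ^ 2 * c := by
        rw [exp_smul]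
        simp only [map_add, map_smul, add_apply, smul_apply, smul_eq_mul]
        rw [hHs (Complex.I • w) w]
        simp only [← ha, ← hb, ← hc]
        ring
      rw [e2, e3] at h4
      unfold circ
      linarith
    have h5 : (∫ θ in (0 : ℝ)..(2 * Real.pi), f (circ x w θ)) ≤
        ∫ θ in (0 : ℝ)..(2 * Real.pi), (f x + (Real.cos θ * D w + Real.sin θ * D (Complex.I • w)) +
        (1 / 2) * (Real.cos θ ^ 2 * a + 2 * (Real.sin θ * Real.cos θ) * b + Real.sin θ ^ 2 * c) +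
        η * ‖w‖ ^ 2) := by
      apply intervalIntegral.integral_mono_on (by positivity)
      · apply Continuous.intervalIntegrable
        exact hf.continuous.comp (Pool.Agent.Results.MP_725b87_an.NotPluripolar.circ_continuous x w)
      · apply Continuous.intervalIntegrable
        fun_prop
      · intro θ _
        exact h2 θ
    have h6 : (∫ θ in (0 : ℝ)..(2 * Real.pi), (f x + (Real.cos θ * D w + Real.sin θ * D (Complex.I • w)) +
        (1 / 2) * (Real.cos θ ^ 2 * a + 2 * (Real.sin θ * Real.cos θ) * b + Real.sin θ ^ 2 * c) +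
        η * ‖w‖ ^ 2)) = 2 * Real.pi * f x + Real.pi / 2 * (a + c) + 2 * Real.pi * (η * ‖w‖ ^ 2) := by
      have g1 : ∀ θ : ℝ, (f x + (Real.cos θ * D w + Real.sin θ * D (Complex.I • w)) +
        (1 / 2) * (Real.cos θ ^ 2 * a + 2 * (Real.sin θ * Real.cos θ) * b + Real.sin θ ^ 2 * c) +
        η * ‖w‖ ^ 2) = (f x + η * ‖w‖ ^ 2) + (Real.cos θ * D w + (Real.sin θ * D (Complex.I • w) +
          (Real.cos θ ^ 2 * (a / 2) + ((Real.sin θ * Real.cos θ) * b + Real.sin θ ^ 2 * (c / 2))))) := by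
        intro θ; ring
      simp_rw [g1]
      obtain ⟨k0, hk0⟩ : ∃ k0 : ℝ, k0 = f x + η * ‖w‖ ^ 2 := ⟨_, rfl⟩
      rw [← hk0]
      have hi : ∀ g : ℝ → ℝ, Continuous g → IntervalIntegrable g volume 0 (2 * Real.pi) :=
        fun g hg => hg.intervalIntegrable _ _
      rw [intervalIntegral.integral_add (hi _ (by fun_prop)) (hi _ (by fun_prop)),
        intervalIntegral.integral_add (hi _ (by fun_prop)) (hi _ (by fun_prop)),
        intervalIntegral.integral_add (hi _ (by fun_prop)) (hi _ (by fun_prop)),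
        intervalIntegral.integral_add (hi _ (by fun_prop)) (hi _ (by fun_prop)),
        intervalIntegral.integral_add (hi _ (by fun_prop)) (hi _ (by fun_prop))]
      simp only [intervalIntegral.integral_mul_const, integral_cos, integral_sin, integral_cos_sq,
        integral_sin_sq, integral_sin_mul_cos₁, intervalIntegral.integral_const, smul_eq_mul]
      simp [hk0]
      ring
    rw [h6] at h5
    have h7 : 0 ≤ Real.pi / 2 * (a + c) + 2 * Real.pi * (η * ‖w‖ ^ 2) := by linarith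
    have h8 : 0 ≤ a + c + 4 * η * ‖w‖ ^ 2 := by
      have : Real.pi / 2 * (a + c) + 2 * Real.pi * (η * ‖w‖ ^ 2) =
        Real.pi / 2 * (a + c + 4 * η * ‖w‖ ^ 2) := by ring
      rw [this] at h7
      exact nonneg_of_mul_nonneg_right h7 (by positivity)
    have e4 : a = t ^ 2 * H v v := by
      rw [ha, hw]; simp only [map_smul, smul_apply, smul_eq_mul]; ring
    have e5 : c = t ^ 2 * H (Complex.I • v) (Complex.I • v) := by
      rw [hc, hw, smul_comm]; simp only [map_smul, smul_apply, smul_eq_mul]; ring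
    rw [e4, e5, hwn] at h8
    have h9 : 0 ≤ t ^ 2 * (H v v + H (Complex.I • v) (Complex.I • v) + 4 * η * ‖v‖ ^ 2) := by
      nlinarith
    have := nonneg_of_mul_nonneg_right h9 (by positivity)
    linarith
  by_contra hcon
  push Not at hcon
  have h10 := key (-(H v v + H (Complex.I • v) (Complex.I • v)) / (8 * (‖v‖ ^ 2 + 1)))
    (by apply div_pos (by linarith) (by positivity))
  have h11 : 4 * (-(H v v + H (Complex.I • v) (Complex.I • v)) / (8 * (‖v‖ ^ 2 + 1))) * ‖v‖ ^ 2 ≤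
      -(H v v + H (Complex.I • v) (Complex.I • v)) / 2 := by
    have : 4 * (-(H v v + H (Complex.I • v) (Complex.I • v)) / (8 * (‖v‖ ^ 2 + 1))) * ‖v‖ ^ 2 =
      -(H v v + H (Complex.I • v) (Complex.I • v)) / 2 * (‖v‖ ^ 2 / (‖v‖ ^ 2 + 1)) := by
      field_simp
      ring
    rw [this]
    apply mul_le_of_le_one_right (by linarith)
    rw [div_le_one (by positivity)]
    linarith
  linarith

/-- multiplication by `i` as a real linear isometry -/
noncomputable def mulI : Cn n ≃ₗᵢ[ℝ] Cn n where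
  toFun v := Complex.I • v
  invFun v := -(Complex.I • v)
  left_inv v := by simp [smul_smul]
  right_inv v := by simp [smul_smul]
  map_add' v w := smul_add _ _ _
  map_smul' t v := smul_comm _ _ _
  norm_map' v := by simp [norm_smul]

theorem mulI_apply (v : Cn n) : mulI v = Complex.I • v := rfl

/-- If `S(v,v) + S(iv,iv) ≥ 0` then the real trace of `S` is nonnegative. -/
theorem trace_nonneg (S : Cn n →ₗ[ℝ] Cn n)
    (h : ∀ v, 0 ≤ ⟪S v, v⟫ + ⟪S (Complex.I • v), Complex.I • v⟫) :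
    0 ≤ LinearMap.trace ℝ (Cn n) S := by
  let J : Cn n ≃ₗ[ℝ] Cn n := (mulI (n := n)).toLinearEquiv
  have h1 : LinearMap.trace ℝ (Cn n) (J.symm.toLinearMap ∘ₗ S ∘ₗ J.toLinearMap) =
      LinearMap.trace ℝ (Cn n) S := by
    rw [← LinearMap.comp_assoc, LinearMap.trace_comp_comm', ← LinearMap.comp_assoc]
    simp
  have h2 : 0 ≤ LinearMap.trace ℝ (Cn n) (S + J.symm.toLinearMap ∘ₗ S ∘ₗ J.toLinearMap) := by
    rw [LinearMap.trace_eq_sum_inner _ (stdOrthonormalBasis ℝ (Cn n))]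
    apply Finset.sum_nonneg
    intro i _
    set v := stdOrthonormalBasis ℝ (Cn n) i
    have h3 := h v
    have h4 : ⟪v, (mulI (n := n)).symm (S (mulI v))⟫ = ⟪mulI v, S (mulI v)⟫ := by
      rw [← (mulI (n := n)).inner_map_map v, LinearIsometryEquiv.apply_symm_apply]
    calc (0 : ℝ) ≤ ⟪S v, v⟫ + ⟪S (Complex.I • v), Complex.I • v⟫ := h3
      _ = ⟪v, S v⟫ + ⟪mulI v, S (mulI v)⟫ := by
          rw [real_inner_comm, real_inner_comm (Complex.I • v)]; rfl
      _ = ⟪v, S v⟫ + ⟪v, (mulI (n := n)).symm (S (mulI v))⟫ := by rw [h4]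
      _ = _ := by
          rw [← inner_add_right]; rfl
  rw [map_add, h1] at h2
  linarith

/-- The set of contact points of paraboloids of opening `M` with vertex in the closed ball of radius
`R - δ`, touching `f` from above on the closed ball of radius `R`. -/
def contactSet (f : Cn n → ℝ) (z₀ : Cn n) (R δ M : ℝ) : Set (Cn n) :=
  {x | x ∈ closedBall z₀ R ∧ ∃ y ∈ closedBall z₀ (R - δ), ∀ x' ∈ closedBall z₀ R,
    f x' - M / 2 * ‖x' - y‖ ^ 2 ≤ f x - M / 2 * ‖x - y‖ ^ 2}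

theorem contact_near {f : Cn n → ℝ} {z₀ : Cn n} {R δ M a b : ℝ} (hδ : 0 ≤ δ)
    (hf : ∀ x ∈ closedBall z₀ R, a ≤ f x ∧ f x ≤ b) (hab : b - a < M / 2 * δ ^ 2) (hM : 0 < M)
    {x y : Cn n} (hx : x ∈ closedBall z₀ R) (hy : y ∈ closedBall z₀ (R - δ))
    (hmax : ∀ x' ∈ closedBall z₀ R, f x' - M / 2 * ‖x' - y‖ ^ 2 ≤ f x - M / 2 * ‖x - y‖ ^ 2) :
    ‖x - y‖ < δ ∧ x ∈ ball z₀ R := by
  have hyR : y ∈ closedBall z₀ R := closedBall_subset_closedBall (by linarith) hy
  have h1 := hmax y hyR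
  rw [sub_self, norm_zero] at h1
  have h2 := (hf y hyR).1
  have h3 := (hf x hx).2
  have h4 : M / 2 * ‖x - y‖ ^ 2 < M / 2 * δ ^ 2 := by nlinarith
  have h5 : ‖x - y‖ ^ 2 < δ ^ 2 := by
    exact lt_of_mul_lt_mul_left h4 (by positivity)
  have h6 : ‖x - y‖ < δ := by
    exact lt_of_pow_lt_pow_left₀ 2 hδ h5
  refine ⟨h6, ?_⟩
  rw [mem_ball, mem_closedBall] at *
  calc dist x z₀ ≤ dist x y + dist y z₀ := dist_triangle _ _ _
    _ < δ + (R - δ) := by rw [dist_eq_norm]; linarith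
    _ = R := by ring

theorem contact_closed {f : Cn n → ℝ} (hf : Continuous f) (z₀ : Cn n) (R δ M : ℝ) :
    IsClosed (contactSet f z₀ R δ M) := by
  have h1 : contactSet f z₀ R δ M = Prod.fst '' {p : Cn n × Cn n | p ∈ closedBall z₀ R ×ˢ closedBall z₀ (R - δ) ∧
      ∀ x' ∈ closedBall z₀ R, f x' - M / 2 * ‖x' - p.2‖ ^ 2 ≤ f p.1 - M / 2 * ‖p.1 - p.2‖ ^ 2} := by
    ext x
    constructor
    · rintro ⟨hx, y, hy, h⟩
      exact ⟨(x, y), ⟨⟨hx, hy⟩, h⟩, rfl⟩
    · rintro ⟨⟨x, y⟩, ⟨⟨hx, hy⟩, h⟩, rfl⟩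
      exact ⟨hx, y, hy, h⟩
  rw [h1]
  apply IsCompact.isClosed
  apply IsCompact.image _ continuous_fst
  have hcK : IsCompact (closedBall z₀ R ×ˢ closedBall z₀ (R - δ)) :=
    (isCompact_closedBall _ _).prod (isCompact_closedBall _ _)
  apply hcK.of_isClosed_subset _ (fun p hp => hp.1)
  apply IsClosed.inter hcK.isClosed
  have h2 : {p : Cn n × Cn n | ∀ x' ∈ closedBall z₀ R,
      f x' - M / 2 * ‖x' - p.2‖ ^ 2 ≤ f p.1 - M / 2 * ‖p.1 - p.2‖ ^ 2} =
      ⋂ x' ∈ closedBall z₀ R, {p : Cn n × Cn n |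
      f x' - M / 2 * ‖x' - p.2‖ ^ 2 ≤ f p.1 - M / 2 * ‖p.1 - p.2‖ ^ 2} := by
    ext p; simp
  show IsClosed {p : Cn n × Cn n | ∀ x' ∈ closedBall z₀ R,
      f x' - M / 2 * ‖x' - p.2‖ ^ 2 ≤ f p.1 - M / 2 * ‖p.1 - p.2‖ ^ 2}
  rw [h2]
  apply isClosed_biInter
  intro x' _
  apply isClosed_le <;> fun_prop

/-- derivative of the paraboloid -/
theorem hasFDerivAt_parab (M : ℝ) (y x : Cn n) :
    HasFDerivAt (fun x : Cn n => M / 2 * ‖x - y‖ ^ 2) (M • innB (Cn n) (x - y)) x := by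
  have h1 := (((hasFDerivAt_id x).sub_const y).norm_sq).const_mul (M / 2)
  refine HasFDerivAt.congr_fderiv (f := fun x : Cn n => M / 2 * ‖x - y‖ ^ 2) h1 ?_
  ext v
  simp [innB_apply]
  ring

theorem volume_contact {f : Cn n → ℝ} (hf : ContDiff ℝ 2 f) {z₀ : Cn n} {R δ M a b : ℝ} (hδ : 0 ≤ δ)
    (hbd : ∀ x ∈ closedBall z₀ R, a ≤ f x ∧ f x ≤ b) (hab : b - a < M / 2 * δ ^ 2) (hM : 0 < M)
    (hess : ∀ x ∈ ball z₀ R, ∀ v, 0 ≤ fderiv ℝ (fderiv ℝ f) x v v +
      fderiv ℝ (fderiv ℝ f) x (Complex.I • v) (Complex.I • v)) :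
    volume (closedBall z₀ (R - δ)) ≤ volume (contactSet f z₀ R δ M) := by
  set A := contactSet f z₀ R δ M with hA
  have hcont : Continuous f := hf.continuous
  have hAm : MeasurableSet A := (contact_closed hcont z₀ R δ M).measurableSet
  set G : Cn n → Cn n := fun x => gradMap (fderiv ℝ f x) with hG
  set T : Cn n → Cn n := fun x => x - M⁻¹ • G x with hT
  set S : Cn n → Cn n →L[ℝ] Cn n := fun x => gradMap.comp (fderiv ℝ (fderiv ℝ f) x) with hS
  have hd' : Differentiable ℝ (fderiv ℝ f) :=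
    (hf.fderiv_right (m := 1) (by norm_num)).differentiable (by norm_num)
  have hSin : ∀ x v w, ⟪S x v, w⟫ = fderiv ℝ (fderiv ℝ f) x v w := by
    intro x v w
    exact inner_gradMap _ _
  have hTd : ∀ x, HasFDerivAt T (ContinuousLinearMap.id ℝ (Cn n) - M⁻¹ • S x) x := by
    intro x
    have h1 : HasFDerivAt G (S x) x :=
      (gradMap (E := Cn n)).hasFDerivAt.comp x (hd' x).hasFDerivAt
    exact (hasFDerivAt_id x).sub (h1.const_smul M⁻¹)
  -- local maxima
  have hloc : ∀ x ∈ closedBall z₀ R, ∀ y ∈ closedBall z₀ (R - δ),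
      (∀ x' ∈ closedBall z₀ R, f x' - M / 2 * ‖x' - y‖ ^ 2 ≤ f x - M / 2 * ‖x - y‖ ^ 2) →
      x ∈ ball z₀ R ∧ T x = y ∧ ∀ v, fderiv ℝ (fderiv ℝ f) x v v ≤ M * ‖v‖ ^ 2 := by
    intro x hx y hy hmax
    have hxb := (contact_near hδ hbd hab hM hx hy hmax).2
    refine ⟨hxb, ?_⟩
    set g : Cn n → ℝ := fun x' => f x' - M / 2 * ‖x' - y‖ ^ 2 with hg
    have hgl : IsLocalMax g x := by
      filter_upwards [isOpen_ball.mem_nhds hxb] with x' hx'
      exact hmax x' (ball_subset_closedBall hx')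
    have hgd : ∀ z, HasFDerivAt g (fderiv ℝ f z - M • innB (Cn n) (z - y)) z := by
      intro z
      exact ((hf.differentiable (by norm_num) z).hasFDerivAt).sub (hasFDerivAt_parab M y z)
    have hgf : fderiv ℝ g = fun z => fderiv ℝ f z - M • innB (Cn n) (z - y) := by
      funext z; exact (hgd z).fderiv
    have hgf2 : ∀ z, fderiv ℝ (fderiv ℝ g) z = fderiv ℝ (fderiv ℝ f) z - M • innB (Cn n) := by
      intro z
      rw [hgf]
      apply HasFDerivAt.fderiv
      have h2 : HasFDerivAt (fun z : Cn n => M • innB (Cn n) (z - y)) (M • innB (Cn n)) z := by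
        have h3 : HasFDerivAt (fun z : Cn n => innB (Cn n) (z - y)) (innB (Cn n)) z := by
          exact (innB (Cn n)).hasFDerivAt.comp z ((hasFDerivAt_id z).sub_const y)
        exact h3.const_smul M
      exact (hd' z).hasFDerivAt.sub h2
    have hg2 : ContDiff ℝ 2 g := by
      apply hf.sub
      exact contDiff_const.mul ((contDiff_id.sub contDiff_const).norm_sq ℝ)
    constructor
    · have h0 : fderiv ℝ g x = 0 := hgl.fderiv_eq_zero
      rw [hgf] at h0
      have h1 : fderiv ℝ f x = M • innB (Cn n) (x - y) := by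
        rw [sub_eq_zero] at h0; exact h0
      have h2 : G x = M • (x - y) := by
        apply ext_inner_right ℝ
        intro v
        have : ⟪G x, v⟫ = fderiv ℝ f x v := inner_gradMap _ _
        rw [this, h1, real_inner_smul_left]
        rfl
      show x - M⁻¹ • G x = y
      rw [h2, smul_smul, inv_mul_cancel₀ hM.ne', one_smul]
      abel
    · intro v
      have h3 := second_order_max hg2 hgl v
      rw [hgf2] at h3
      simp only [sub_apply, smul_apply, innB_apply, smul_eq_mul, real_inner_self_eq_norm_sq] at h3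
      linarith
  have hsub : closedBall z₀ (R - δ) ⊆ T '' A := by
    intro y hy
    have hyR : y ∈ closedBall z₀ R := closedBall_subset_closedBall (by linarith) hy
    obtain ⟨x, hx, hmax⟩ := (isCompact_closedBall z₀ R).exists_isMaxOn ⟨y, hyR⟩
      (f := fun x' => f x' - M / 2 * ‖x' - y‖ ^ 2) (by apply Continuous.continuousOn; fun_prop)
    have hmax' : ∀ x' ∈ closedBall z₀ R, f x' - M / 2 * ‖x' - y‖ ^ 2 ≤ f x - M / 2 * ‖x - y‖ ^ 2 :=
      fun x' hx' => hmax hx'
    exact ⟨x, ⟨hx, y, hy, hmax'⟩, (hloc x hx y hy hmax').2.1⟩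
  have hdet : ∀ x ∈ A, |(ContinuousLinearMap.id ℝ (Cn n) - M⁻¹ • S x).det| ≤ 1 := by
    rintro x ⟨hx, y, hy, hmax⟩
    obtain ⟨hxb, -, hH⟩ := hloc x hx y hy hmax
    have hsymm : ∀ v w, fderiv ℝ (fderiv ℝ f) x v w = fderiv ℝ (fderiv ℝ f) x w v :=
      fun v w => (hf.contDiffAt (x := x)).isSymmSndFDerivAt (by simp) v w
    apply det_le_one ((ContinuousLinearMap.id ℝ (Cn n) - M⁻¹ • S x : Cn n →L[ℝ] Cn n) : Cn n →ₗ[ℝ] Cn n)
    · intro v w
      show ⟪v - M⁻¹ • S x v, w⟫ = ⟪v, w - M⁻¹ • S x w⟫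
      rw [inner_sub_left, inner_sub_right, real_inner_smul_left, real_inner_smul_right, hSin,
        real_inner_comm (S x w) v, hSin, hsymm]
    · intro v
      show 0 ≤ ⟪v - M⁻¹ • S x v, v⟫
      rw [inner_sub_left, real_inner_smul_left, hSin, real_inner_self_eq_norm_sq, sub_nonneg,
        inv_mul_le_iff₀ hM]
      exact hH v
    · have h1 : ((ContinuousLinearMap.id ℝ (Cn n) - M⁻¹ • S x : Cn n →L[ℝ] Cn n) : Cn n →ₗ[ℝ] Cn n) =
          LinearMap.id - M⁻¹ • ((S x : Cn n →L[ℝ] Cn n) : Cn n →ₗ[ℝ] Cn n) := rfl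
      rw [h1, map_sub, map_smul, LinearMap.trace_id, smul_eq_mul]
      have h2 : 0 ≤ LinearMap.trace ℝ (Cn n) ((S x : Cn n →L[ℝ] Cn n) : Cn n →ₗ[ℝ] Cn n) := by
        apply trace_nonneg
        intro v
        have := hess x hxb v
        rw [← hSin, ← hSin] at this
        exact this
      have h3 : 0 ≤ M⁻¹ * LinearMap.trace ℝ (Cn n) ((S x : Cn n →L[ℝ] Cn n) : Cn n →ₗ[ℝ] Cn n) :=
        mul_nonneg (inv_nonneg.2 hM.le) h2
      linarith
  calc volume (closedBall z₀ (R - δ)) ≤ volume (T '' A) := measure_mono hsub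
    _ ≤ ∫⁻ x in A, ENNReal.ofReal |(ContinuousLinearMap.id ℝ (Cn n) - M⁻¹ • S x).det| :=
        addHaar_image_le_lintegral_abs_det_fderiv volume hAm (fun x _ => (hTd x).hasFDerivWithinAt)
    _ ≤ ∫⁻ _ in A, 1 := by
        apply setLIntegral_mono measurable_const
        intro x hx
        rw [ENNReal.ofReal_le_one]
        exact hdet x hx
    _ = volume A := by simp

end Pool.Agent.N671.UT
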