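import Pool.Agent.N671.UT.Moll

/-!
# Almost every point of a bounded function with the mean value inequality is a contact point
-/

set_option autoImplicit false

namespace Pool.Agent.N671.UT

open Set Filter Topology Metric MeasureTheory
open Pool.Agent.Results.MP_725b87_an.NotPluripolar (Cn circ IsPSH HasUpperTest exceptional)
open scoped ContDiff RealInnerProductSpace

variable {n : ℕ}

/-- points of the open ball touched from above by a paraboloid on the closed ball -/
def good (g : Cn n → ℝ) (z₀ : Cn n) (R : ℝ) : Set (Cn n) :=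
  {x | x ∈ ball z₀ R ∧ ∃ (M : ℝ) (y : Cn n), ∀ x' ∈ closedBall z₀ R,
    g x' - M / 2 * ‖x' - y‖ ^ 2 ≤ g x - M / 2 * ‖x - y‖ ^ 2}

theorem norm_circ_sub (z w : Cn n) (θ : ℝ) : ‖circ z w θ - z‖ = ‖w‖ := by
  unfold circ
  rw [add_sub_cancel_left, norm_smul, Complex.norm_exp_ofReal_mul_I, one_mul]

section

variable {g : Cn n → ℝ} {a b : ℝ}

/-- upper semicontinuity gives the upper limit of the mollifications -/
theorem sm_lt_of_usc (hgu : UpperSemicontinuous g) (ha : ∀ x, a ≤ g x) (hb : ∀ x, g x ≤ b)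
    (x : Cn n) {c : ℝ} (hc : g x < c) : ∃ ε₀ : ℝ, 0 < ε₀ ∧ ∀ ε : ℝ, 0 < ε → ε < ε₀ → sm ε g x ≤ c := by
  have h1 := hgu x c hc
  rw [Metric.eventually_nhds_iff] at h1
  obtain ⟨δ, hδ, h1⟩ := h1
  refine ⟨δ, hδ, fun ε hε hεδ => ?_⟩
  apply sm_le hgu.measurable ha hb hε
  intro t ht
  apply le_of_lt
  apply h1
  rw [dist_eq_norm]
  simpa using lt_trans ht hεδ

/-- the limit of contact sets -/
theorem limsup_contact (hgu : UpperSemicontinuous g) (ha : ∀ x, a ≤ g x) (hb : ∀ x, g x ≤ b)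
    {z₀ : Cn n} {R ρ δ M : ℝ} (hRρ : R < ρ) (hδ : 0 ≤ δ)
    (hmean : ∀ z w : Cn n, closedBall z ‖w‖ ⊆ closedBall z₀ ρ →
      2 * Real.pi * g z ≤ ∫ θ in (0 : ℝ)..(2 * Real.pi), g (circ z w θ))
    (hab : b - a < M / 2 * δ ^ 2) (hM : 0 < M) (ε : ℕ → ℝ) (hε0 : ∀ k, 0 < ε k)
    (hε1 : ∀ k, ε k < ρ - R) (hε : Tendsto ε atTop (𝓝 0)) {x : Cn n}
    (hx : ∀ N, ∃ k, N ≤ k ∧ x ∈ contactSet (sm (ε k) g) z₀ R δ M) : x ∈ good g z₀ R := by
  choose k hk hxk using hx
  have hx' : ∀ N, ∃ y ∈ closedBall z₀ (R - δ), ∀ x' ∈ closedBall z₀ R,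
      sm (ε (k N)) g x' - M / 2 * ‖x' - y‖ ^ 2 ≤ sm (ε (k N)) g x - M / 2 * ‖x - y‖ ^ 2 :=
    fun N => (hxk N).2
  choose y hy hyx using hx'
  obtain ⟨y₀, hy₀, ψ, hψ, hlim⟩ := (isCompact_closedBall z₀ (R - δ)).tendsto_subseq hy
  have hxR : x ∈ closedBall z₀ R := (hxk 0).1
  have hkt : Tendsto (fun j => k (ψ j)) atTop atTop := by
    apply tendsto_atTop_mono (fun j => hk (ψ j))
    exact hψ.tendsto_atTop
  have hεt : Tendsto (fun j => ε (k (ψ j))) atTop (𝓝 0) := hε.comp hkt
  have hmain : ∀ x' ∈ closedBall z₀ R,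
      g x' - M / 2 * ‖x' - y₀‖ ^ 2 ≤ g x - M / 2 * ‖x - y₀‖ ^ 2 := by
    intro x' hx'
    apply le_of_forall_pos_le_add
    intro η hη
    obtain ⟨ε₀, hε₀, hup⟩ := sm_lt_of_usc hgu ha hb x (c := g x + η) (by linarith)
    have h1 : ∀ᶠ j in atTop, g x' - M / 2 * ‖x' - y (ψ j)‖ ^ 2 ≤ g x + η - M / 2 * ‖x - y (ψ j)‖ ^ 2 := by
      filter_upwards [hεt.eventually (gt_mem_nhds hε₀)] with j hj
      have e1 := hyx (ψ j) x' hx'
      have e2 := hup _ (hε0 _) hj
      have e3 : g x' ≤ sm (ε (k (ψ j))) g x' := by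
        apply self_le_sm hgu.measurable ha hb (hε0 _)
        intro w hw
        apply hmean
        intro p hp
        rw [mem_closedBall] at *
        have := hε1 (k (ψ j))
        calc dist p z₀ ≤ dist p x' + dist x' z₀ := dist_triangle _ _ _
          _ ≤ ρ := by linarith
      linarith
    have h2 : Tendsto (fun j => g x' - M / 2 * ‖x' - y (ψ j)‖ ^ 2) atTop
        (𝓝 (g x' - M / 2 * ‖x' - y₀‖ ^ 2)) := by
      apply Tendsto.const_sub
      apply Tendsto.const_mul
      exact ((tendsto_const_nhds.sub hlim).norm).pow 2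
    have h3 : Tendsto (fun j => g x + η - M / 2 * ‖x - y (ψ j)‖ ^ 2) atTop
        (𝓝 (g x + η - M / 2 * ‖x - y₀‖ ^ 2)) := by
      apply Tendsto.const_sub
      apply Tendsto.const_mul
      exact ((tendsto_const_nhds.sub hlim).norm).pow 2
    have h4 := le_of_tendsto_of_tendsto h2 h3 h1
    linarith
  refine ⟨?_, M, y₀, hmain⟩
  exact (contact_near hδ (fun z _ => ⟨ha z, hb z⟩) hab hM hxR hy₀ hmain).2

theorem good_full (hgu : UpperSemicontinuous g) (ha : ∀ x, a ≤ g x) (hb : ∀ x, g x ≤ b)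
    {z₀ : Cn n} {R ρ : ℝ} (hR : 0 < R) (hRρ : R < ρ)
    (hmean : ∀ z w : Cn n, closedBall z ‖w‖ ⊆ closedBall z₀ ρ →
      2 * Real.pi * g z ≤ ∫ θ in (0 : ℝ)..(2 * Real.pi), g (circ z w θ)) :
    volume (closedBall z₀ R \ good g z₀ R) = 0 := by
  have key : ∀ δ : ℝ, 0 < δ → δ < R → volume (closedBall z₀ R \ good g z₀ R) ≤
      volume (closedBall z₀ R) - volume (closedBall z₀ (R - δ)) := by
    intro δ hδ hδR
    obtain ⟨M, hM, hab⟩ : ∃ M : ℝ, 0 < M ∧ b - a < M / 2 * δ ^ 2 := by
      refine ⟨2 * ((|b - a| + 1) / δ ^ 2), by positivity, ?_⟩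
      have : 2 * ((|b - a| + 1) / δ ^ 2) / 2 * δ ^ 2 = |b - a| + 1 := by field_simp
      rw [this]
      linarith [le_abs_self (b - a)]
    set ε : ℕ → ℝ := fun k => (ρ - R) / (k + 2) with hεdef
    have hρR : 0 < ρ - R := by linarith
    have hε0 : ∀ k, 0 < ε k := fun k => by positivity
    have hε2 : ∀ k, ε k ≤ (ρ - R) / 2 := by
      intro k
      simp only [hεdef]
      apply div_le_div_of_nonneg_left hρR.le (by norm_num)
      have : (0 : ℝ) ≤ k := Nat.cast_nonneg k
      linarith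
    have hε1 : ∀ k, ε k < ρ - R := fun k => lt_of_le_of_lt (hε2 k) (by linarith)
    have hεt : Tendsto ε atTop (𝓝 0) := by
      have h1 : Tendsto (fun k : ℕ => (k : ℝ) + 2) atTop atTop :=
        tendsto_atTop_add_const_right _ _ tendsto_natCast_atTop_atTop
      exact h1.const_div_atTop (ρ - R)
    set A : ℕ → Set (Cn n) := fun k => contactSet (sm (ε k) g) z₀ R δ M with hA
    have hsm : ∀ k, ContDiff ℝ 2 (sm (ε k) g) := fun k => sm_contDiff hgu.measurable ha hb (hε0 k)
    have hAm : ∀ k, MeasurableSet (A k) := fun k =>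
      (contact_closed (hsm k).continuous z₀ R δ M).measurableSet
    have hAsub : ∀ k, A k ⊆ closedBall z₀ R := fun k x hx => hx.1
    have hAv : ∀ k, volume (closedBall z₀ (R - δ)) ≤ volume (A k) := by
      intro k
      apply volume_contact (hsm k) hδ.le (a := a) (b := b) _ hab hM
      · intro x hx v
        apply hess_nonneg (hsm k) x (s := (ρ - R) / 2) (by linarith)
        intro w hw
        apply sm_mean hgu.measurable ha hb (hε0 k)
        intro t ht
        apply hmean
        intro p hp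
        rw [mem_closedBall] at *
        rw [mem_ball] at hx
        have e1 := hε2 k
        have e2 : dist (x - t) x = ‖t‖ := by rw [dist_eq_norm]; simp
        calc dist p z₀ ≤ dist p (x - t) + dist (x - t) x + dist x z₀ := dist_triangle4 _ _ _ _
          _ ≤ ρ := by rw [e2]; linarith
      · intro x _
        exact ⟨le_sm hgu.measurable ha hb (hε0 k) (fun t _ => ha _),
          sm_le hgu.measurable ha hb (hε0 k) (fun t _ => hb _)⟩
    set B : ℕ → Set (Cn n) := fun N => ⋃ k ≥ N, A k with hB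
    have hBm : ∀ N, MeasurableSet (B N) := fun N =>
      MeasurableSet.iUnion fun k => MeasurableSet.iUnion fun _ => hAm k
    have hBanti : Antitone B := by
      intro N N' hNN x hx
      simp only [hB, mem_iUnion] at hx ⊢
      obtain ⟨k, hk, hx⟩ := hx
      exact ⟨k, le_trans hNN hk, hx⟩
    have hBsub : ∀ N, B N ⊆ closedBall z₀ R := by
      intro N x hx
      simp only [hB, mem_iUnion] at hx
      obtain ⟨k, _, hx⟩ := hx
      exact hAsub k hx
    have hfin : volume (closedBall z₀ R) ≠ ⊤ := measure_closedBall_lt_top.ne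
    have hBfin : ∃ N, volume (B N) ≠ ⊤ := ⟨0, ne_top_of_le_ne_top hfin (measure_mono (hBsub 0))⟩
    have hlim := tendsto_measure_iInter_atTop (μ := volume) (fun N => (hBm N).nullMeasurableSet) hBanti hBfin
    have hvB : volume (closedBall z₀ (R - δ)) ≤ volume (⋂ N, B N) := by
      apply ge_of_tendsto' hlim
      intro N
      refine (hAv N).trans (measure_mono ?_)
      intro x hx
      simp only [hB, mem_iUnion]
      exact ⟨N, le_rfl, hx⟩
    have hBg : (⋂ N, B N) ⊆ good g z₀ R := by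
      intro x hx
      rw [mem_iInter] at hx
      apply limsup_contact hgu ha hb hRρ hδ.le hmean hab hM ε hε0 hε1 hεt
      intro N
      have := hx N
      simp only [hB, mem_iUnion] at this
      obtain ⟨k, hk, h⟩ := this
      exact ⟨k, hk, h⟩
    have hIm : MeasurableSet (⋂ N, B N) := MeasurableSet.iInter hBm
    calc volume (closedBall z₀ R \ good g z₀ R) ≤ volume (closedBall z₀ R \ ⋂ N, B N) :=
          measure_mono (diff_subset_diff_right hBg)
      _ = volume (closedBall z₀ R) - volume (⋂ N, B N) := by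
          apply measure_diff _ hIm.nullMeasurableSet
          · exact ne_top_of_le_ne_top hfin (measure_mono ((iInter_subset B 0).trans (hBsub 0)))
          · exact (iInter_subset B 0).trans (hBsub 0)
      _ ≤ _ := tsub_le_tsub_left hvB _
  have hlim : Tendsto (fun δ : ℝ => volume (closedBall z₀ R) - volume (closedBall z₀ (R - δ)))
      (𝓝[>] 0) (𝓝 0) := by
    have hc : volume (ball (0 : Cn n) 1) ≠ ⊤ := measure_ball_lt_top.ne
    have h1 : Tendsto (fun δ : ℝ => ENNReal.ofReal ((R - δ) ^ Module.finrank ℝ (Cn n)) *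
        volume (ball (0 : Cn n) 1)) (𝓝[>] 0)
        (𝓝 (ENNReal.ofReal (R ^ Module.finrank ℝ (Cn n)) * volume (ball (0 : Cn n) 1))) := by
      apply ENNReal.Tendsto.mul_const _ (Or.inr hc)
      apply ENNReal.tendsto_ofReal
      have : Tendsto (fun δ : ℝ => (R - δ) ^ Module.finrank ℝ (Cn n)) (𝓝 0)
          (𝓝 ((R - 0) ^ Module.finrank ℝ (Cn n))) := by
        apply Continuous.tendsto; fun_prop
      rw [sub_zero] at this
      exact this.mono_left nhdsWithin_le_nhds
    have h2 : Tendsto (fun δ : ℝ => volume (closedBall z₀ (R - δ))) (𝓝[>] 0)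
        (𝓝 (volume (closedBall z₀ R))) := by
      rw [Measure.addHaar_closedBall _ _ hR.le]
      refine h1.congr' ?_
      have : ∀ᶠ δ : ℝ in 𝓝[>] 0, δ < R := by
        have : ∀ᶠ δ : ℝ in 𝓝 0, δ < R := gt_mem_nhds hR
        exact this.filter_mono nhdsWithin_le_nhds
      filter_upwards [this] with δ hδ
      rw [Measure.addHaar_closedBall _ _ (by linarith)]
    have h3 := ENNReal.Tendsto.sub (tendsto_const_nhds (x := volume (closedBall z₀ R))
      (f := 𝓝[>] (0 : ℝ))) h2 (Or.inl measure_closedBall_lt_top.ne)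
    rwa [tsub_self] at h3
  have hle : volume (closedBall z₀ R \ good g z₀ R) ≤ 0 := by
    apply ge_of_tendsto hlim
    have : ∀ᶠ δ : ℝ in 𝓝[>] 0, δ < R := by
      have : ∀ᶠ δ : ℝ in 𝓝 0, δ < R := gt_mem_nhds hR
      exact this.filter_mono nhdsWithin_le_nhds
    filter_upwards [this, self_mem_nhdsWithin] with δ h1 h2
    exact key δ h2 h1
  exact le_antisymm hle zero_le

end

end Pool.Agent.N671.UT
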