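import Pool.Agent.N671.UT.Contact

/-!
# Upper semicontinuous functions on circles and mollification
-/

set_option autoImplicit false

namespace Pool.Agent.N671.UT

open Set Filter Topology Metric MeasureTheory
open Pool.Agent.Results.MP_725b87_an.NotPluripolar (Cn circ IsPSH HasUpperTest exceptional)
open scoped ContDiff RealInnerProductSpace

variable {n : ℕ}

/-- the Lipschitz majorants -/
noncomputable def supConv (g : ℝ → ℝ) (m : ℕ) (θ : ℝ) : ℝ := ⨆ s : ℝ, (g s - m * |s - θ|)

section

variable {g : ℝ → ℝ} {a b : ℝ}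

theorem supConv_bdd (hb : ∀ x, g x ≤ b) (m : ℕ) (θ : ℝ) :
    BddAbove (range fun s : ℝ => g s - m * |s - θ|) := by
  refine ⟨b, ?_⟩
  rintro _ ⟨s, rfl⟩
  have : (0 : ℝ) ≤ m * |s - θ| := by positivity
  show g s - m * |s - θ| ≤ b
  linarith [hb s]

theorem le_supConv (hb : ∀ x, g x ≤ b) (m : ℕ) (θ : ℝ) : g θ ≤ supConv g m θ := by
  have := le_ciSup (supConv_bdd hb m θ) θ
  simpa [supConv] using this

theorem supConv_le (hb : ∀ x, g x ≤ b) (m : ℕ) (θ : ℝ) : supConv g m θ ≤ b := by
  apply ciSup_le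
  intro s
  have : (0 : ℝ) ≤ m * |s - θ| := by positivity
  linarith [hb s]

theorem supConv_lip (hb : ∀ x, g x ≤ b) (m : ℕ) (θ θ' : ℝ) :
    supConv g m θ ≤ supConv g m θ' + m * |θ - θ'| := by
  apply ciSup_le
  intro s
  have h1 := le_ciSup (supConv_bdd hb m θ') s
  have h2 : |s - θ'| ≤ |s - θ| + |θ - θ'| := by
    calc |s - θ'| = |(s - θ) + (θ - θ')| := by ring_nf
      _ ≤ _ := abs_add_le _ _
  have h3 : (m : ℝ) * |s - θ'| ≤ m * (|s - θ| + |θ - θ'|) := by gcongr
  have h4 : supConv g m θ' = ⨆ s : ℝ, (g s - m * |s - θ'|) := rfl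
  rw [h4]
  linarith

theorem supConv_continuous (hb : ∀ x, g x ≤ b) (m : ℕ) : Continuous (supConv g m) := by
  have : LipschitzWith (m : NNReal) (supConv g m) := by
    apply LipschitzWith.of_dist_le_mul
    intro x y
    rw [Real.dist_eq, Real.dist_eq, abs_le]
    have h1 := supConv_lip hb m x y
    have h2 := supConv_lip hb m y x
    rw [abs_sub_comm y x] at h2
    constructor
    · simp only [NNReal.coe_natCast]; linarith
    · simp only [NNReal.coe_natCast]; linarith
  exact this.continuous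

theorem supConv_tendsto (hg : UpperSemicontinuous g) (ha : ∀ x, a ≤ g x) (hb : ∀ x, g x ≤ b) (θ : ℝ) :
    Tendsto (fun m : ℕ => supConv g m θ) atTop (𝓝 (g θ)) := by
  rw [Metric.tendsto_atTop]
  intro ε hε
  have h1 := hg θ (g θ + ε / 2) (by linarith)
  rw [Metric.eventually_nhds_iff] at h1
  obtain ⟨δ, hδ, h1⟩ := h1
  obtain ⟨N, hN⟩ := exists_nat_gt ((b - a) / δ)
  refine ⟨N, fun m hm => ?_⟩
  have h2 := le_supConv hb m θ
  have h3 : supConv g m θ ≤ g θ + ε / 2 := by
    apply ciSup_le
    intro s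
    by_cases hs : dist s θ < δ
    · have := h1 hs
      have h0 : (0 : ℝ) ≤ m * |s - θ| := by positivity
      linarith
    · push Not at hs
      rw [Real.dist_eq] at hs
      have h4 : (b - a) / δ < m := lt_of_lt_of_le hN (by exact_mod_cast hm)
      rw [div_lt_iff₀ hδ] at h4
      have h5 : (m : ℝ) * δ ≤ m * |s - θ| := by gcongr
      linarith [hb s, ha θ]
  rw [Real.dist_eq, abs_lt]
  constructor <;> linarith

/-- Mean values over continuous majorants determine the integral of an upper semicontinuous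
function. -/
theorem usc_integral (hg : UpperSemicontinuous g) (ha : ∀ x, a ≤ g x) (hb : ∀ x, g x ≤ b) {c : ℝ}
    (h : ∀ k : ℝ → ℝ, Continuous k → (∀ θ ∈ Icc 0 (2 * Real.pi), g θ ≤ k θ) →
      c ≤ (2 * Real.pi)⁻¹ * ∫ θ in (0 : ℝ)..(2 * Real.pi), k θ) :
    2 * Real.pi * c ≤ ∫ θ in (0 : ℝ)..(2 * Real.pi), g θ := by
  have hpi : 0 < 2 * Real.pi := by positivity
  have h1 : Tendsto (fun m : ℕ => ∫ θ in (0 : ℝ)..(2 * Real.pi), supConv g m θ) atTop
      (𝓝 (∫ θ in (0 : ℝ)..(2 * Real.pi), g θ)) := by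
    apply intervalIntegral.tendsto_integral_filter_of_dominated_convergence (fun _ => |a| + |b|)
    · exact Eventually.of_forall fun m => (supConv_continuous hb m).aestronglyMeasurable
    · refine Eventually.of_forall fun m => Eventually.of_forall fun θ _ => ?_
      rw [Real.norm_eq_abs, abs_le]
      have e1 := le_supConv hb m θ
      have e2 := supConv_le hb m θ
      have e3 := ha θ
      constructor
      · linarith [neg_abs_le a, abs_nonneg b]
      · linarith [le_abs_self b, abs_nonneg a]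
    · exact intervalIntegrable_const
    · exact Eventually.of_forall fun θ _ => supConv_tendsto hg ha hb θ
  apply ge_of_tendsto' h1
  intro m
  have := h _ (supConv_continuous hb m) (fun θ _ => le_supConv hb m θ)
  rw [le_inv_mul_iff₀ hpi] at this
  exact this

end

/-! ### The mollifier -/

/-- a smooth radial bump -/
noncomputable def bump (ε : ℝ) (w : Cn n) : ℝ := Real.smoothTransition (1 - ‖w‖ ^ 2 / ε ^ 2)

theorem bump_contDiff (ε : ℝ) : ContDiff ℝ 2 (bump ε : Cn n → ℝ) := by
  unfold bump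
  apply (Real.smoothTransition.contDiff (n := 2)).comp
  apply contDiff_const.sub
  exact (contDiff_norm_sq ℝ).div_const _

theorem bump_nonneg (ε : ℝ) (w : Cn n) : 0 ≤ bump ε w := Real.smoothTransition.nonneg _

theorem bump_le_one (ε : ℝ) (w : Cn n) : bump ε w ≤ 1 := Real.smoothTransition.le_one _

theorem bump_eq_zero {ε : ℝ} (hε : 0 < ε) {w : Cn n} (hw : ε ≤ ‖w‖) : bump ε w = 0 := by
  apply Real.smoothTransition.zero_of_nonpos
  have : 1 ≤ ‖w‖ ^ 2 / ε ^ 2 := by
    rw [one_le_div (by positivity)]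
    gcongr
  linarith

theorem bump_pos {ε : ℝ} (hε : 0 < ε) {w : Cn n} (hw : ‖w‖ < ε) : 0 < bump ε w := by
  apply Real.smoothTransition.pos_of_pos
  have : ‖w‖ ^ 2 / ε ^ 2 < 1 := by
    rw [div_lt_one (by positivity)]
    gcongr
  linarith

theorem bump_congr (ε : ℝ) {w w' : Cn n} (h : ‖w‖ = ‖w'‖) : bump ε w = bump ε w' := by
  unfold bump; rw [h]

theorem bump_compact {ε : ℝ} (hε : 0 < ε) : HasCompactSupport (bump ε : Cn n → ℝ) := by
  apply HasCompactSupport.intro (isCompact_closedBall (0 : Cn n) ε)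
  intro x hx
  apply bump_eq_zero hε
  rw [mem_closedBall_zero_iff] at hx
  linarith

theorem bump_integrable {ε : ℝ} (hε : 0 < ε) : Integrable (bump ε : Cn n → ℝ) :=
  (bump_contDiff ε).continuous.integrable_of_hasCompactSupport (bump_compact hε)

theorem bump_mass {ε : ℝ} (hε : 0 < ε) : 0 < ∫ w : Cn n, bump ε w := by
  apply (bump_contDiff ε).continuous.integral_pos_of_hasCompactSupport_nonneg_nonzero
    (bump_compact hε) (fun w => bump_nonneg ε w) (x := 0)
  exact (bump_pos hε (by simpa using hε)).ne'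

/-- the normalised mollifier -/
noncomputable def mol (ε : ℝ) (w : Cn n) : ℝ := (∫ w : Cn n, bump ε w)⁻¹ * bump ε w

theorem mol_nonneg {ε : ℝ} (hε : 0 < ε) (w : Cn n) : 0 ≤ mol ε w :=
  mul_nonneg (inv_nonneg.2 (bump_mass hε).le) (bump_nonneg ε w)

theorem mol_pos {ε : ℝ} (hε : 0 < ε) {w : Cn n} (hw : ‖w‖ < ε) : 0 < mol ε w :=
  mul_pos (inv_pos.2 (bump_mass hε)) (bump_pos hε hw)

theorem mol_eq_zero {ε : ℝ} (hε : 0 < ε) {w : Cn n} (hw : ε ≤ ‖w‖) : mol ε w = 0 := by
  unfold mol; rw [bump_eq_zero hε hw, mul_zero]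

theorem mol_contDiff (ε : ℝ) : ContDiff ℝ 2 (mol ε : Cn n → ℝ) :=
  contDiff_const.mul (bump_contDiff ε)

theorem mol_compact {ε : ℝ} (hε : 0 < ε) : HasCompactSupport (mol ε : Cn n → ℝ) :=
  (bump_compact hε).mul_left

theorem mol_integrable {ε : ℝ} (hε : 0 < ε) : Integrable (mol ε : Cn n → ℝ) :=
  (bump_integrable hε).const_mul _

theorem mol_integral {ε : ℝ} (hε : 0 < ε) : ∫ w : Cn n, mol ε w = 1 := by
  unfold mol
  rw [integral_const_mul, inv_mul_cancel₀ (bump_mass hε).ne']

theorem mol_congr (ε : ℝ) {w w' : Cn n} (h : ‖w‖ = ‖w'‖) : mol ε w = mol ε w' := by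
  unfold mol; rw [bump_congr ε h]

/-- the mollification -/
noncomputable def sm (ε : ℝ) (g : Cn n → ℝ) (x : Cn n) : ℝ := ∫ t, mol ε t * g (x - t)

section

variable {g : Cn n → ℝ} {a b : ℝ} (hg : Measurable g) (ha : ∀ x, a ≤ g x) (hb : ∀ x, g x ≤ b)

include hg ha hb

omit hg in
theorem abs_bound (x : Cn n) : ‖g x‖ ≤ |a| + |b| := by
  rw [Real.norm_eq_abs, abs_le]
  constructor
  · linarith [neg_abs_le a, abs_nonneg b, ha x]
  · linarith [le_abs_self b, abs_nonneg a, hb x]

theorem sm_integrable {ε : ℝ} (hε : 0 < ε) (x : Cn n) : Integrable (fun t => mol ε t * g (x - t)) := by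
  apply (mol_integrable hε).mul_bdd (c := |a| + |b|)
  · exact (hg.comp (measurable_const.sub measurable_id)).aestronglyMeasurable
  · exact Eventually.of_forall fun t => abs_bound ha hb _

theorem sm_contDiff {ε : ℝ} (hε : 0 < ε) : ContDiff ℝ 2 (sm ε g) := by
  have h1 : LocallyIntegrable g volume := by
    apply MeasureTheory.LocallyIntegrable.mono (locallyIntegrable_const (|a| + |b|)) hg.aestronglyMeasurable
    refine Eventually.of_forall fun x => ?_
    rw [Real.norm_of_nonneg (by positivity : 0 ≤ |a| + |b|)]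
    exact abs_bound ha hb x
  exact (mol_compact hε).contDiff_convolution_left (ContinuousLinearMap.mul ℝ ℝ) (mol_contDiff ε) h1

theorem sm_le {ε : ℝ} (hε : 0 < ε) {x : Cn n} {c : ℝ} (h : ∀ t : Cn n, ‖t‖ < ε → g (x - t) ≤ c) :
    sm ε g x ≤ c := by
  have h1 : sm ε g x ≤ ∫ t : Cn n, mol ε t * c := by
    apply integral_mono (sm_integrable hg ha hb hε x) ((mol_integrable hε).mul_const c)
    intro t
    by_cases ht : ‖t‖ < ε
    · exact mul_le_mul_of_nonneg_left (h t ht) (mol_nonneg hε t)
    · simp [mol_eq_zero hε (not_lt.1 ht)]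
  rwa [integral_mul_const, mol_integral hε, one_mul] at h1

theorem le_sm {ε : ℝ} (hε : 0 < ε) {x : Cn n} {c : ℝ} (h : ∀ t : Cn n, ‖t‖ < ε → c ≤ g (x - t)) :
    c ≤ sm ε g x := by
  have h1 : ∫ t : Cn n, mol ε t * c ≤ sm ε g x := by
    apply integral_mono ((mol_integrable hε).mul_const c) (sm_integrable hg ha hb hε x)
    intro t
    by_cases ht : ‖t‖ < ε
    · exact mul_le_mul_of_nonneg_left (h t ht) (mol_nonneg hε t)
    · simp [mol_eq_zero hε (not_lt.1 ht)]
  rwa [integral_mul_const, mol_integral hε, one_mul] at h1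

/-- product integrability -/
theorem prod_integrable {ε : ℝ} (hε : 0 < ε) {F : Cn n × ℝ → Cn n} (hF : Measurable F) :
    Integrable (fun p : Cn n × ℝ => mol ε p.1 * g (F p))
      ((volume : Measure (Cn n)).prod (volume.restrict (Ioc 0 (2 * Real.pi)))) := by
  have h1 : Integrable (fun p : Cn n × ℝ => mol ε p.1)
      ((volume : Measure (Cn n)).prod (volume.restrict (Ioc 0 (2 * Real.pi)))) := by
    have := (mol_integrable (n := n) hε).mul_prod (integrable_const (1 : ℝ)
      (μ := (volume.restrict (Ioc 0 (2 * Real.pi)))))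
    simpa using this
  apply h1.mul_bdd (c := |a| + |b|)
  · exact (hg.comp hF).aestronglyMeasurable
  · exact Eventually.of_forall fun t => abs_bound ha hb _

end

theorem measurable_circ : Measurable fun p : Cn n × (Cn n × ℝ) => circ p.1 p.2.1 p.2.2 := by
  unfold circ
  have : Continuous fun p : Cn n × (Cn n × ℝ) =>
    p.1 + Complex.exp ((p.2.2 : ℂ) * Complex.I) • p.2.1 := by fun_prop
  exact this.measurable

/-- rotation by `-e^{iθ}` -/
noncomputable def rotI (θ : ℝ) : Cn n ≃ₗᵢ[ℝ] Cn n where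
  toFun v := -(Complex.exp ((θ : ℂ) * Complex.I) • v)
  invFun v := -(Complex.exp (-((θ : ℂ) * Complex.I)) • v)
  left_inv v := by simp [smul_smul, ← Complex.exp_add]
  right_inv v := by simp [smul_smul, ← Complex.exp_add]
  map_add' v w := by rw [smul_add, neg_add]
  map_smul' t v := by
    simp only [RingHom.id_apply, smul_neg]
    rw [smul_comm]
  norm_map' v := by
    show ‖-(Complex.exp ((θ : ℂ) * Complex.I) • v)‖ = ‖v‖
    rw [norm_neg, norm_smul, Complex.norm_exp_ofReal_mul_I, one_mul]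

theorem rotI_apply (θ : ℝ) (v : Cn n) : rotI θ v = -(Complex.exp ((θ : ℂ) * Complex.I) • v) := rfl

theorem sm_rot (ε : ℝ) (g : Cn n → ℝ) (x : Cn n) (θ : ℝ) :
    sm ε g x = ∫ w, mol ε w * g (circ x w θ) := by
  unfold sm
  have h1 := (LinearIsometryEquiv.measurePreserving (rotI (n := n) θ)).integral_comp
    (rotI (n := n) θ).toHomeomorph.measurableEmbedding (fun t => mol ε t * g (x - t))
  rw [← h1]
  apply integral_congr_ae
  refine Eventually.of_forall fun w => ?_
  show mol ε (rotI θ w) * g (x - rotI θ w) = mol ε w * g (circ x w θ)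
  rw [mol_congr ε (show ‖rotI θ w‖ = ‖w‖ from LinearIsometryEquiv.norm_map _ _)]
  congr 2
  rw [rotI_apply, sub_neg_eq_add]
  rfl

section

variable {g : Cn n → ℝ} {a b : ℝ} (hg : Measurable g) (ha : ∀ x, a ≤ g x) (hb : ∀ x, g x ≤ b)

include hg ha hb

/-- the mollification is at least the function, if the mean value inequality holds -/
theorem self_le_sm {ε : ℝ} (hε : 0 < ε) {x : Cn n}
    (h : ∀ w : Cn n, ‖w‖ < ε → 2 * Real.pi * g x ≤ ∫ θ in (0 : ℝ)..(2 * Real.pi), g (circ x w θ)) :
    g x ≤ sm ε g x := by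
  have hpi : (0 : ℝ) ≤ 2 * Real.pi := by positivity
  have h1 : (∫ θ in (0 : ℝ)..(2 * Real.pi), ∫ w, mol ε w * g (circ x w θ)) =
      ∫ w : Cn n, mol ε w * ∫ θ in (0 : ℝ)..(2 * Real.pi), g (circ x w θ) := by
    rw [intervalIntegral.integral_of_le hpi]
    rw [integral_integral_swap]
    · apply integral_congr_ae
      refine Eventually.of_forall fun w => ?_
      simp only
      rw [intervalIntegral.integral_of_le hpi, integral_const_mul]
    · have h2 := prod_integrable hg ha hb hε (F := fun p => circ x p.1 p.2)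
        (measurable_circ.comp (measurable_const.prodMk measurable_id))
      exact h2.swap
  have h3 : (∫ θ in (0 : ℝ)..(2 * Real.pi), ∫ w, mol ε w * g (circ x w θ)) = 2 * Real.pi * sm ε g x := by
    simp_rw [← sm_rot ε g x]
    rw [intervalIntegral.integral_const, smul_eq_mul, sub_zero]
  rw [h3] at h1
  have hmeas : Integrable (fun w : Cn n => mol ε w * ∫ θ in (0 : ℝ)..(2 * Real.pi), g (circ x w θ)) := by
    have h2 := (prod_integrable hg ha hb hε (F := fun p => circ x p.1 p.2)
        (measurable_circ.comp (measurable_const.prodMk measurable_id))).integral_prod_left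
    refine h2.congr (Eventually.of_forall fun w => ?_)
    simp only
    rw [intervalIntegral.integral_of_le hpi, integral_const_mul]
  have h4 : (∫ w : Cn n, mol ε w * (2 * Real.pi * g x)) ≤
      ∫ w : Cn n, mol ε w * ∫ θ in (0 : ℝ)..(2 * Real.pi), g (circ x w θ) := by
    apply integral_mono ((mol_integrable hε).mul_const _) hmeas
    intro w
    by_cases hw : ‖w‖ < ε
    · exact mul_le_mul_of_nonneg_left (h w hw) (mol_nonneg hε w)
    · simp [mol_eq_zero hε (not_lt.1 hw)]
  rw [integral_mul_const, mol_integral hε, one_mul, ← h1] at h4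
  have : 0 < 2 * Real.pi := by positivity
  exact le_of_mul_le_mul_left h4 this

/-- the mean value inequality is inherited by the mollification -/
theorem sm_mean {ε : ℝ} (hε : 0 < ε) {x w : Cn n}
    (h : ∀ t : Cn n, ‖t‖ < ε → 2 * Real.pi * g (x - t) ≤ ∫ θ in (0 : ℝ)..(2 * Real.pi), g (circ (x - t) w θ)) :
    2 * Real.pi * sm ε g x ≤ ∫ θ in (0 : ℝ)..(2 * Real.pi), sm ε g (circ x w θ) := by
  have hpi : (0 : ℝ) ≤ 2 * Real.pi := by positivity
  have hcirc : ∀ (t : Cn n) (θ : ℝ), circ x w θ - t = circ (x - t) w θ := by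
    intro t θ; unfold circ; abel
  have hI := prod_integrable hg ha hb hε (F := fun p => circ (x - p.1) w p.2)
        (measurable_circ.comp ((measurable_const.sub measurable_fst).prodMk
          (measurable_const.prodMk measurable_snd)))
  have h1 : (∫ θ in (0 : ℝ)..(2 * Real.pi), sm ε g (circ x w θ)) =
      ∫ t : Cn n, mol ε t * ∫ θ in (0 : ℝ)..(2 * Real.pi), g (circ (x - t) w θ) := by
    unfold sm
    simp_rw [hcirc]
    rw [intervalIntegral.integral_of_le hpi]
    rw [integral_integral_swap]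
    · apply integral_congr_ae
      refine Eventually.of_forall fun t => ?_
      simp only
      rw [intervalIntegral.integral_of_le hpi, integral_const_mul]
    · exact hI.swap
  have hmeas : Integrable (fun t : Cn n => mol ε t * ∫ θ in (0 : ℝ)..(2 * Real.pi), g (circ (x - t) w θ)) := by
    refine hI.integral_prod_left.congr (Eventually.of_forall fun t => ?_)
    simp only
    rw [intervalIntegral.integral_of_le hpi, integral_const_mul]
  rw [h1]
  unfold sm
  rw [← integral_const_mul]
  apply integral_mono ((sm_integrable hg ha hb hε x).const_mul _) hmeas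
  intro t
  by_cases ht : ‖t‖ < ε
  · have := mul_le_mul_of_nonneg_left (h t ht) (mol_nonneg hε t)
    calc 2 * Real.pi * (mol ε t * g (x - t)) = mol ε t * (2 * Real.pi * g (x - t)) := by ring
      _ ≤ _ := this
  · simp [mol_eq_zero hε (not_lt.1 ht)]

end

end Pool.Agent.N671.UT
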