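import Pool.Agent.N671.UT.Local

/-!
# Plurisubharmonic functions: truncation, the set where the function is `-∞`, and the theorem
-/

set_option autoImplicit false

namespace Pool.Agent.N671.UT

open Set Filter Topology Metric MeasureTheory
open Pool.Agent.Results.MP_725b87_an.NotPluripolar (Cn circ IsPSH HasUpperTest exceptional)
open scoped ContDiff RealInnerProductSpace

variable {n : ℕ}

open Classical in
/-- the truncation `max(φ, -L)` on `K`, and `-L` outside `K` -/
noncomputable def trunc (φ : Cn n → EReal) (K : Set (Cn n)) (L : ℝ) (z : Cn n) : ℝ :=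
  if z ∈ K then (max (φ z) ((-L : ℝ) : EReal)).toReal else -L

section

variable {φ : Cn n → EReal} {K : Set (Cn n)} {L : ℝ}

theorem trunc_coe (hK : ∀ z ∈ K, φ z ≠ ⊤) {z : Cn n} (hz : z ∈ K) :
    ((trunc φ K L z : ℝ) : EReal) = max (φ z) ((-L : ℝ) : EReal) := by
  unfold trunc
  rw [if_pos hz]
  apply EReal.coe_toReal
  · intro h
    rcases max_eq_iff.1 h with h1 | h1
    · exact hK z hz h1.1
    · exact EReal.coe_ne_top _ h1.1
  · intro h
    have := le_max_right (φ z) ((-L : ℝ) : EReal)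
    rw [h, le_bot_iff] at this
    exact EReal.coe_ne_bot _ this

theorem trunc_out {z : Cn n} (hz : z ∉ K) : trunc φ K L z = -L := by
  unfold trunc; rw [if_neg hz]

theorem trunc_ge (hK : ∀ z ∈ K, φ z ≠ ⊤) (z : Cn n) : -L ≤ trunc φ K L z := by
  by_cases hz : z ∈ K
  · rw [← EReal.coe_le_coe_iff, trunc_coe hK hz]
    exact le_max_right _ _
  · rw [trunc_out hz]

theorem trunc_le {C : ℝ} (hK : ∀ z ∈ K, φ z ≤ (C : EReal)) (hL : 0 ≤ L) (z : Cn n) :
    trunc φ K L z ≤ |C| := by
  have hK' : ∀ z ∈ K, φ z ≠ ⊤ := fun z hz h => by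
    have := hK z hz
    rw [h, top_le_iff] at this
    exact EReal.coe_ne_top _ this
  by_cases hz : z ∈ K
  · rw [← EReal.coe_le_coe_iff, trunc_coe hK' hz]
    apply max_le
    · exact (hK z hz).trans (EReal.coe_le_coe_iff.2 (le_abs_self C))
    · exact EReal.coe_le_coe_iff.2 (by linarith [abs_nonneg C])
  · rw [trunc_out hz]
    linarith [abs_nonneg C]

theorem trunc_usc {Ω : Set (Cn n)} (hΩ : IsOpen Ω) (hu : UpperSemicontinuousOn φ Ω)
    (hK : ∀ z ∈ K, φ z ≠ ⊤) (hKΩ : K ⊆ Ω) (hKc : IsClosed K) : UpperSemicontinuous (trunc φ K L) := by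
  intro z y hy
  by_cases hz : z ∈ K
  · have h1 : max (φ z) ((-L : ℝ) : EReal) < (y : EReal) := by
      rw [← trunc_coe hK hz]; exact EReal.coe_lt_coe_iff.2 hy
    rw [max_lt_iff] at h1
    have h2 := hu z (hKΩ hz) _ h1.1
    rw [hΩ.nhdsWithin_eq (hKΩ hz)] at h2
    filter_upwards [h2] with z' hz'
    by_cases hzK : z' ∈ K
    · rw [← EReal.coe_lt_coe_iff, trunc_coe hK hzK]
      exact max_lt hz' h1.2
    · rw [trunc_out hzK]
      exact EReal.coe_lt_coe_iff.1 h1.2
  · rw [trunc_out hz] at hy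
    filter_upwards [hKc.isOpen_compl.mem_nhds hz] with z' hz'
    rw [trunc_out hz']
    exact hy

theorem circ_mem (z w : Cn n) (θ : ℝ) : circ z w θ ∈ closedBall z ‖w‖ := by
  rw [mem_closedBall, dist_eq_norm, norm_circ_sub]

theorem trunc_mean {Ω : Set (Cn n)} (hΩ : IsOpen Ω) (hφ : IsPSH Ω φ) (hKΩ : K ⊆ Ω) (hKc : IsClosed K)
    {C : ℝ} (hC : ∀ z ∈ K, φ z ≤ (C : EReal)) (hL : 0 ≤ L) (z w : Cn n) (hzw : closedBall z ‖w‖ ⊆ K) :
    2 * Real.pi * trunc φ K L z ≤ ∫ θ in (0 : ℝ)..(2 * Real.pi), trunc φ K L (circ z w θ) := by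
  obtain ⟨htop, husc, hm⟩ := hφ
  have hK : ∀ z ∈ K, φ z ≠ ⊤ := fun z hz => htop z (hKΩ hz)
  have hpi : 0 < 2 * Real.pi := by positivity
  have hcc : Continuous (circ z w) :=
    Pool.Agent.Results.MP_725b87_an.NotPluripolar.circ_continuous z w
  have hzK : z ∈ K := hzw (mem_closedBall_self (norm_nonneg _))
  apply usc_integral (g := fun θ => trunc φ K L (circ z w θ)) (a := -L) (b := |C|)
  · intro θ y hy
    exact hcc.continuousAt.eventually (trunc_usc hΩ husc hK hKΩ hKc (circ z w θ) y hy)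
  · intro θ; exact trunc_ge hK _
  · intro θ; exact trunc_le hC hL _
  · intro k hk hmaj
    rw [← EReal.coe_le_coe_iff, trunc_coe hK hzK]
    apply max_le
    · apply hm z w _ k hk
      · intro θ hθ
        have h1 : circ z w θ ∈ K := hzw (circ_mem z w θ)
        calc φ (circ z w θ) ≤ max (φ (circ z w θ)) ((-L : ℝ) : EReal) := le_max_left _ _
          _ = ((trunc φ K L (circ z w θ) : ℝ) : EReal) := (trunc_coe hK h1).symm
          _ ≤ (k θ : EReal) := EReal.coe_le_coe_iff.2 (hmaj θ hθ)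
      · intro ζ hζ
        apply hKΩ
        apply hzw
        rw [mem_closedBall, dist_eq_norm, add_sub_cancel_left, norm_smul]
        exact mul_le_of_le_one_left (norm_nonneg _) hζ
    · apply EReal.coe_le_coe_iff.2
      rw [le_inv_mul_iff₀ hpi]
      have h1 : (∫ _θ in (0 : ℝ)..(2 * Real.pi), (-L)) ≤ ∫ θ in (0 : ℝ)..(2 * Real.pi), k θ := by
        apply intervalIntegral.integral_mono_on hpi.le (by simp) (hk.intervalIntegrable _ _)
        intro θ hθ
        exact (trunc_ge hK _).trans (hmaj θ hθ)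
      rw [intervalIntegral.integral_const, smul_eq_mul, sub_zero] at h1
      exact h1

end

theorem exists_bound {Ω : Set (Cn n)} {φ : Cn n → EReal} (hφ : IsPSH Ω φ) {K : Set (Cn n)}
    (hKΩ : K ⊆ Ω) (hKc : IsCompact K) : ∃ C : ℝ, ∀ z ∈ K, φ z ≤ (C : EReal) := by
  rcases K.eq_empty_or_nonempty with h | hne
  · exact ⟨0, fun z hz => by simp [h] at hz⟩
  · obtain ⟨z0, hz0, hmax⟩ := (hφ.2.1.mono hKΩ).exists_isMaxOn hne hKc
    refine ⟨(φ z0).toReal, fun z hz => ?_⟩
    exact (hmax hz).trans (EReal.le_coe_toReal (hφ.1 z0 (hKΩ hz0)))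

/-- a point where `φ > -∞` has a neighbourhood where `φ > -∞` almost everywhere -/
theorem bot_null_near {Ω : Set (Cn n)} (hΩ : IsOpen Ω) {φ : Cn n → EReal} (hφ : IsPSH Ω φ)
    {a : Cn n} {ρ : ℝ} (hρ : 0 < ρ) (haΩ : closedBall a ρ ⊆ Ω) (ha : φ a ≠ ⊥) :
    volume ({z | φ z = ⊥} ∩ ball a ρ) = 0 := by
  set K := closedBall a ρ with hK
  have hKc : IsClosed K := isClosed_closedBall
  obtain ⟨C, hC⟩ := exists_bound hφ haΩ (isCompact_closedBall a ρ)
  have hKt : ∀ z ∈ K, φ z ≠ ⊤ := fun z hz => hφ.1 z (haΩ hz)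
  have haK : a ∈ K := mem_closedBall_self hρ.le
  set S : Set (Cn n) := ⋂ m : ℕ, {z | trunc φ K m z ≤ -(m : ℝ)} with hS
  have husc : ∀ L : ℝ, UpperSemicontinuous (trunc φ K L) := fun L =>
    trunc_usc hΩ hφ.2.1 hKt haΩ hKc
  have hSm : MeasurableSet S := by
    apply MeasurableSet.iInter
    intro m
    exact (husc m).measurable measurableSet_Iic
  have hsub : {z | φ z = ⊥} ∩ ball a ρ ⊆ S ∩ ball a ρ := by
    rintro z ⟨hz, hzb⟩
    refine ⟨?_, hzb⟩
    rw [hS, mem_iInter]
    intro m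
    have hzK : z ∈ K := ball_subset_closedBall hzb
    show trunc φ K m z ≤ -(m : ℝ)
    rw [← EReal.coe_le_coe_iff, trunc_coe hKt hzK]
    rw [show φ z = ⊥ from hz]
    simp
  apply measure_mono_null hsub
  -- the mollified indicator of `S`
  set u : ℝ := (φ a).toReal with hu
  have hua : (u : EReal) = φ a := EReal.coe_toReal (hKt a haK) ha
  set μS : ℝ := ∫ t : Cn n, mol ρ t * S.indicator (fun _ => (1 : ℝ)) (a - t) with hμS
  have hindm : Measurable (S.indicator (fun _ : Cn n => (1 : ℝ))) := measurable_const.indicator hSm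
  have hind0 : ∀ x, (0 : ℝ) ≤ S.indicator (fun _ => (1 : ℝ)) x := fun x =>
    indicator_nonneg (fun _ _ => zero_le_one) x
  have hind1 : ∀ x, S.indicator (fun _ => (1 : ℝ)) x ≤ 1 := fun x =>
    indicator_le' (fun _ _ => le_rfl) (fun _ _ => zero_le_one) x
  have hint := sm_integrable hindm hind0 hind1 hρ a
  have h1 : ∀ m : ℕ, u ≤ |C| - (|C| + m) * μS := by
    intro m
    have hm0 : (0 : ℝ) ≤ m := Nat.cast_nonneg m
    have e1 : u ≤ trunc φ K m a := by
      rw [← EReal.coe_le_coe_iff, trunc_coe hKt haK, hua]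
      exact le_max_left _ _
    have e2 : trunc φ K m a ≤ sm ρ (trunc φ K m) a := by
      apply self_le_sm (husc m).measurable (trunc_ge hKt) (trunc_le hC hm0) hρ
      intro w hw
      apply trunc_mean hΩ hφ haΩ hKc hC hm0
      exact closedBall_subset_closedBall hw.le
    have e3 : sm ρ (trunc φ K m) a ≤ ∫ t : Cn n, (mol ρ t * |C| - (|C| + m) *
        (mol ρ t * S.indicator (fun _ => (1 : ℝ)) (a - t))) := by
      apply integral_mono (sm_integrable (husc m).measurable (trunc_ge hKt) (trunc_le hC hm0) hρ a)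
      · exact ((mol_integrable hρ).mul_const _).sub (hint.const_mul _)
      · intro t
        have e4 : trunc φ K m (a - t) ≤ |C| - (|C| + m) * S.indicator (fun _ => (1 : ℝ)) (a - t) := by
          by_cases ht : a - t ∈ S
          · rw [indicator_of_mem ht]
            have := mem_iInter.1 ht m
            have : trunc φ K m (a - t) ≤ -(m : ℝ) := this
            linarith
          · rw [indicator_of_notMem ht, mul_zero, sub_zero]
            exact trunc_le hC hm0 _
        have := mul_le_mul_of_nonneg_left e4 (mol_nonneg hρ t)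
        calc mol ρ t * trunc φ K m (a - t) ≤ _ := this
          _ = _ := by ring
    rw [integral_sub ((mol_integrable hρ).mul_const _) (hint.const_mul _), integral_mul_const,
      mol_integral hρ, one_mul, integral_const_mul] at e3
    linarith
  have hμ0 : 0 ≤ μS := integral_nonneg fun t => mul_nonneg (mol_nonneg hρ t) (hind0 _)
  have hμz : μS = 0 := by
    by_contra hne
    have hpos : 0 < μS := lt_of_le_of_ne hμ0 (Ne.symm hne)
    obtain ⟨m, hm⟩ := exists_nat_gt ((|C| - u) / μS)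
    rw [div_lt_iff₀ hpos] at hm
    have := h1 m
    have h2 : 0 ≤ |C| * μS := mul_nonneg (abs_nonneg _) hμ0
    nlinarith
  rw [hμS, integral_eq_zero_iff_of_nonneg (fun t => mul_nonneg (mol_nonneg hρ t) (hind0 _)) hint] at hμz
  -- translate back
  have hmp : MeasurePreserving (fun t : Cn n => a - t) volume volume :=
    Measure.measurePreserving_sub_left volume a
  have h3 : volume ((fun t : Cn n => a - t) ⁻¹' (S ∩ ball a ρ)) = 0 := by
    have h4 : (fun t : Cn n => a - t) ⁻¹' (S ∩ ball a ρ) ⊆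
        {t | ¬ (mol ρ t * S.indicator (fun _ => (1 : ℝ)) (a - t) = 0)} := by
      rintro t ⟨ht, htb⟩
      have e1 : ‖t‖ < ρ := by
        rw [mem_ball, dist_eq_norm] at htb
        simpa using htb
      show ¬ (mol ρ t * S.indicator (fun _ => (1 : ℝ)) (a - t) = 0)
      rw [indicator_of_mem ht, mul_one]
      exact (mol_pos hρ e1).ne'
    apply measure_mono_null h4
    exact hμz
  rwa [hmp.measure_preimage (hSm.inter measurableSet_ball).nullMeasurableSet] at h3

/-- A plurisubharmonic function on a domain, not identically `-∞`, is `> -∞` almost everywhere;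
local form. -/
theorem bot_null {Ω : Set (Cn n)} (hΩ : IsOpen Ω) (hc : IsPreconnected Ω) {φ : Cn n → EReal}
    (hφ : IsPSH Ω φ) (hne : ∃ z ∈ Ω, φ z ≠ ⊥) :
    ∀ z ∈ Ω, ∃ r : ℝ, 0 < r ∧ volume ({z | φ z = ⊥} ∩ ball z r) = 0 := by
  set W : Set (Cn n) := {z | ∃ r : ℝ, 0 < r ∧ volume ({z | φ z = ⊥} ∩ ball z r) = 0} with hW
  have hWo : IsOpen W := by
    rw [Metric.isOpen_iff]
    rintro z ⟨r, hr, h⟩
    refine ⟨r / 2, by positivity, ?_⟩
    intro z' hz'
    refine ⟨r / 2, by positivity, measure_mono_null (inter_subset_inter_right _ ?_) h⟩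
    intro p hp
    rw [mem_ball] at *
    linarith [dist_triangle p z' z]
  have hsub : Ω ⊆ W := by
    apply hc.subset_of_closure_inter_subset hWo
    · obtain ⟨a, ha, hab⟩ := hne
      obtain ⟨ρ, hρ, hρΩ⟩ := Metric.nhds_basis_closedBall.mem_iff.1 (hΩ.mem_nhds ha)
      exact ⟨a, ha, ρ, hρ, bot_null_near hΩ hφ hρ hρΩ hab⟩
    · rintro z ⟨hzc, hz⟩
      obtain ⟨ρ, hρ, hρΩ⟩ := Metric.nhds_basis_closedBall.mem_iff.1 (hΩ.mem_nhds hz)
      rw [Metric.mem_closure_iff] at hzc
      obtain ⟨z', ⟨r, hr, hr0⟩, hzz⟩ := hzc (ρ / 4) (by positivity)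
      obtain ⟨a, ha, hab⟩ : ∃ a ∈ ball z' (min r (ρ / 4)), φ a ≠ ⊥ := by
        by_contra hcon
        push Not at hcon
        have h1 : ball z' (min r (ρ / 4)) ⊆ {z | φ z = ⊥} ∩ ball z' r := by
          intro p hp
          exact ⟨hcon p hp, ball_subset_ball (min_le_left _ _) hp⟩
        have h2 := measure_mono_null h1 hr0
        have h3 : 0 < volume (ball z' (min r (ρ / 4))) :=
          measure_ball_pos _ _ (lt_min hr (by positivity))
        exact h3.ne' h2
      have hda : dist a z < ρ / 2 := by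
        rw [mem_ball] at ha
        have := min_le_right r (ρ / 4)
        have h4 := dist_triangle a z' z
        rw [dist_comm z' z] at h4
        linarith
      have h5 := bot_null_near hΩ hφ (a := a) (ρ := ρ / 2) (by positivity) (by
        intro p hp
        apply hρΩ
        rw [mem_closedBall] at *
        linarith [dist_triangle p a z]) hab
      refine ⟨ρ / 2 - dist a z, by linarith, measure_mono_null (inter_subset_inter_right _ ?_) h5⟩
      intro p hp
      rw [mem_ball] at *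
      have := dist_triangle p z a
      rw [dist_comm z a] at this
      linarith
  intro z hz
  exact hsub hz

/-- contact points of the truncation where `φ > -L` have an upper test for `φ` -/
theorem test_of_good {Ω : Set (Cn n)} {φ : Cn n → EReal} {z₀ : Cn n} {R ρ L : ℝ} (hRρ : R ≤ ρ)
    (hKΩ : closedBall z₀ ρ ⊆ Ω) (hKt : ∀ z ∈ closedBall z₀ ρ, φ z ≠ ⊤) {x : Cn n}
    (hx : x ∈ good (trunc φ (closedBall z₀ ρ) L) z₀ R) (hxL : ((-L : ℝ) : EReal) ≤ φ x) :
    HasUpperTest Ω φ x := by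
  obtain ⟨hxb, M, y, hmax⟩ := hx
  have hRK : ball z₀ R ⊆ closedBall z₀ ρ := ball_subset_closedBall.trans (closedBall_subset_closedBall hRρ)
  refine ⟨ball z₀ R, fun x' => M / 2 * ‖x' - y‖ ^ 2, isOpen_ball, hRK.trans hKΩ, hxb, ?_, ?_⟩
  · apply ContDiff.contDiffOn
    exact contDiff_const.mul ((contDiff_id.sub contDiff_const).norm_sq ℝ)
  · intro x' hx'
    have e1 := hmax x' (ball_subset_closedBall hx')
    have e2 : φ x = ((trunc φ (closedBall z₀ ρ) L x : ℝ) : EReal) := by
      rw [trunc_coe hKt (hRK hxb), max_eq_left hxL]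
    have e3 : φ x' ≤ ((trunc φ (closedBall z₀ ρ) L x' : ℝ) : EReal) := by
      rw [trunc_coe hKt (hRK hx')]; exact le_max_left _ _
    calc φ x' - ((M / 2 * ‖x' - y‖ ^ 2 : ℝ) : EReal)
        ≤ ((trunc φ (closedBall z₀ ρ) L x' : ℝ) : EReal) - ((M / 2 * ‖x' - y‖ ^ 2 : ℝ) : EReal) :=
          EReal.sub_le_sub e3 le_rfl
      _ ≤ ((trunc φ (closedBall z₀ ρ) L x : ℝ) : EReal) - ((M / 2 * ‖x - y‖ ^ 2 : ℝ) : EReal) := by
          rw [← EReal.coe_sub, ← EReal.coe_sub]
          exact EReal.coe_le_coe_iff.2 e1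
      _ = φ x - ((M / 2 * ‖x - y‖ ^ 2 : ℝ) : EReal) := by rw [e2]

/-- **Theorem.** The exceptional set of a plurisubharmonic function has measure zero. -/
theorem exceptional_null (Ω : Set (Cn n)) (hΩ : IsOpen Ω) (hc : IsPreconnected Ω)
    (φ : Cn n → EReal) (hφ : IsPSH Ω φ) (hne : ∃ z ∈ Ω, φ z ≠ ⊥) :
    volume (exceptional Ω φ) = 0 := by
  apply measure_null_of_locally_null
  intro z hz
  have hzΩ : z ∈ Ω := hz.1
  obtain ⟨r, hr, hbot⟩ := bot_null hΩ hc hφ hne z hzΩ
  obtain ⟨ρ, hρ, hρΩ⟩ := Metric.nhds_basis_closedBall.mem_iff.1 (hΩ.mem_nhds hzΩ)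
  set R : ℝ := min r (ρ / 2) with hRdef
  have hR : 0 < R := lt_min hr (by positivity)
  have hRρ : R < ρ := lt_of_le_of_lt (min_le_right _ _) (by linarith)
  have hKt : ∀ z' ∈ closedBall z ρ, φ z' ≠ ⊤ := fun z' hz' => hφ.1 z' (hρΩ hz')
  obtain ⟨C, hC⟩ := exists_bound hφ hρΩ (isCompact_closedBall z ρ)
  refine ⟨exceptional Ω φ ∩ ball z R, inter_mem self_mem_nhdsWithin
    (mem_nhdsWithin_of_mem_nhds (isOpen_ball.mem_nhds (mem_ball_self hR))), ?_⟩
  have hsub : exceptional Ω φ ∩ ball z R ⊆ ({z | φ z = ⊥} ∩ ball z r) ∪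
      ⋃ m : ℕ, closedBall z R \ good (trunc φ (closedBall z ρ) m) z R := by
    rintro x ⟨hx, hxR⟩
    by_cases hb : φ x = ⊥
    · left
      exact ⟨hb, ball_subset_ball (min_le_left _ _) hxR⟩
    · right
      have hxK : x ∈ closedBall z ρ := ball_subset_closedBall (ball_subset_ball hRρ.le hxR)
      obtain ⟨m, hm⟩ := exists_nat_gt (-(φ x).toReal)
      rw [mem_iUnion]
      refine ⟨m, ball_subset_closedBall hxR, fun hg => hx.2 ?_⟩
      apply test_of_good hRρ.le hρΩ hKt hg
      rw [← EReal.coe_toReal (hKt x hxK) hb]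
      exact EReal.coe_le_coe_iff.2 (by linarith)
  apply measure_mono_null hsub
  rw [measure_union_null_iff]
  refine ⟨hbot, ?_⟩
  rw [measure_iUnion_null_iff]
  intro m
  have hm0 : (0 : ℝ) ≤ m := Nat.cast_nonneg m
  apply good_full (trunc_usc hΩ hφ.2.1 hKt hρΩ isClosed_closedBall) (trunc_ge hKt)
    (trunc_le hC hm0) hR hRρ
  intro z' w' hzw
  exact trunc_mean hΩ hφ hρΩ isClosed_closedBall hC hm0 z' w' hzw

end Pool.Agent.N671.UT
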